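import Pool.Agent.J4H5.RZ.Stm2
import Pool.Agent.H316R2.LS

set_option autoImplicit false

/-!
# Project RZ, piece (DV): the divisor sum
-/

namespace Pool.Agent.J4H23.RZ

open Complex MeasureTheory Filter Topology Set
open Pool.Agent.J4H4.NG Pool.Agent.J4H5.RZ

/-- the elementary inequality for one term -/
lemma dv_term {a C₀ T lam : ℝ} (ha : 0 < a) (hT : 0 < T) (hlam : 0 ≤ lam) (hTl : Real.log T ≤ 2 * lam + 2 * C₀) (n : ℕ) :
    (bb a lam n) ^ 2 * (T + ((n : ℝ) + 1) * (1 + Real.log ((n : ℝ) + 1))) ≤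
      Real.exp (-(4 * lam)) * (Real.exp (2 * C₀) + 1 + 2 * lam) * Real.exp (81 / (8 * a)) *
        ((((n + 1).divisors.card : ℝ)) ^ 2 / ((n : ℝ) + 1) *
          Real.exp (-(6 * |Real.log ((n : ℝ) + 1) - 2 * lam|))) := by
  obtain ⟨m, hm⟩ : ∃ m : ℝ, m = (n : ℝ) + 1 := ⟨_, rfl⟩
  obtain ⟨x, hx⟩ : ∃ x : ℝ, x = Real.log m - 2 * lam := ⟨_, rfl⟩
  obtain ⟨d, hd⟩ : ∃ d : ℝ, d = ((n + 1).divisors.card : ℝ) := ⟨_, rfl⟩
  have hm1 : 1 ≤ m := by
    rw [hm]
    have : (0 : ℝ) ≤ n := Nat.cast_nonneg n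
    linarith
  have hm0 : 0 < m := by linarith
  have hd0 : 0 ≤ d := by rw [hd]; positivity
  have hlogm : Real.log m = 2 * lam + x := by rw [hx]; ring
  have hme : m = Real.exp (2 * lam + x) := by rw [← hlogm, Real.exp_log hm0]
  have hb : bb a lam n = d * ((m ^ 2)⁻¹ * Real.exp (-a * x ^ 2)) := by
    unfold bb amp
    rw [hd, hx, hm]
    push_cast
    rfl
  rw [hb, ← hm, ← hd, ← hx]
  have hTe : T ≤ Real.exp (2 * lam + 2 * C₀) := by
    rw [← Real.log_le_iff_le_exp hT]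
    exact hTl
  have hxa : x ≤ |x| := le_abs_self x
  have hxb : -x ≤ |x| := neg_le_abs x
  have habs : 0 ≤ |x| := abs_nonneg x
  -- first claim
  have c1 : (m ^ 3)⁻¹ * T ≤ Real.exp (-(4 * lam)) * Real.exp (2 * C₀) * Real.exp (3 * |x|) := by
    have e1 : (m ^ 3)⁻¹ = Real.exp (-(6 * lam) - 3 * x) := by
      rw [hme, ← Real.exp_nat_mul, ← Real.exp_neg]
      congr 1
      push_cast
      ring
    rw [e1]
    calc Real.exp (-(6 * lam) - 3 * x) * T ≤ Real.exp (-(6 * lam) - 3 * x) * Real.exp (2 * lam + 2 * C₀) :=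
          mul_le_mul_of_nonneg_left hTe (Real.exp_pos _).le
      _ = Real.exp (-(4 * lam) + 2 * C₀ - 3 * x) := by
          rw [← Real.exp_add]
          congr 1
          ring
      _ ≤ Real.exp (-(4 * lam) + 2 * C₀ + 3 * |x|) := Real.exp_le_exp.2 (by linarith)
      _ = _ := by rw [Real.exp_add, Real.exp_add]
  have c2 : (m ^ 2)⁻¹ * (1 + Real.log m) ≤ Real.exp (-(4 * lam)) * (1 + 2 * lam) * Real.exp (3 * |x|) := by
    have e1 : (m ^ 2)⁻¹ = Real.exp (-(4 * lam) - 2 * x) := by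
      rw [hme, ← Real.exp_nat_mul, ← Real.exp_neg]
      congr 1
      push_cast
      ring
    have e2 : 1 + Real.log m ≤ (1 + 2 * lam) * Real.exp |x| := by
      have h1 : 1 + |x| ≤ Real.exp |x| := by
        have := Real.add_one_le_exp |x|
        linarith
      have h2 : (1 + 2 * lam) * (1 + |x|) ≤ (1 + 2 * lam) * Real.exp |x| :=
        mul_le_mul_of_nonneg_left h1 (by linarith)
      have h3 : 0 ≤ lam * |x| := mul_nonneg hlam habs
      rw [hlogm]
      nlinarith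
    rw [e1]
    calc Real.exp (-(4 * lam) - 2 * x) * (1 + Real.log m)
        ≤ Real.exp (-(4 * lam) + 2 * |x|) * ((1 + 2 * lam) * Real.exp |x|) := by
          refine mul_le_mul (Real.exp_le_exp.2 (by linarith)) e2 ?_ (Real.exp_pos _).le
          have := Real.log_nonneg hm1
          linarith
      _ = _ := by
          have : Real.exp (3 * |x|) = Real.exp (2 * |x|) * Real.exp |x| := by
            rw [← Real.exp_add]
            congr 1
            ring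
          rw [Real.exp_add, this]
          ring
  have c3 : Real.exp (-a * x ^ 2) ^ 2 * Real.exp (3 * |x|) ≤ Real.exp (81 / (8 * a)) * Real.exp (-(6 * |x|)) := by
    rw [← Real.exp_nat_mul, ← Real.exp_add, ← Real.exp_add]
    refine Real.exp_le_exp.2 ?_
    have h1 : 0 ≤ (4 * a * |x| - 9) ^ 2 / (8 * a) := by positivity
    have h2 : (4 * a * |x| - 9) ^ 2 / (8 * a) = 2 * a * |x| ^ 2 - 9 * |x| + 81 / (8 * a) := by
      field_simp
      ring
    rw [h2, sq_abs] at h1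
    push_cast
    linarith
  have e3 : (d * ((m ^ 2)⁻¹ * Real.exp (-a * x ^ 2))) ^ 2 * (T + m * (1 + Real.log m)) =
      d ^ 2 / m * ((m ^ 3)⁻¹ * T + (m ^ 2)⁻¹ * (1 + Real.log m)) * Real.exp (-a * x ^ 2) ^ 2 := by
    field_simp
  rw [e3]
  have hdm : 0 ≤ d ^ 2 / m := by positivity
  have hE : 0 ≤ Real.exp (-a * x ^ 2) ^ 2 := by positivity
  have hQ : 0 ≤ Real.exp (-(4 * lam)) * (Real.exp (2 * C₀) + 1 + 2 * lam) := by
    have := Real.exp_pos (2 * C₀)
    have := Real.exp_pos (-(4 * lam))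
    positivity
  calc d ^ 2 / m * ((m ^ 3)⁻¹ * T + (m ^ 2)⁻¹ * (1 + Real.log m)) * Real.exp (-a * x ^ 2) ^ 2
      ≤ d ^ 2 / m * (Real.exp (-(4 * lam)) * Real.exp (2 * C₀) * Real.exp (3 * |x|) +
        Real.exp (-(4 * lam)) * (1 + 2 * lam) * Real.exp (3 * |x|)) * Real.exp (-a * x ^ 2) ^ 2 := by
        refine mul_le_mul_of_nonneg_right (mul_le_mul_of_nonneg_left (add_le_add c1 c2) hdm) hE
    _ = Real.exp (-(4 * lam)) * (Real.exp (2 * C₀) + 1 + 2 * lam) * (d ^ 2 / m) *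
        (Real.exp (-a * x ^ 2) ^ 2 * Real.exp (3 * |x|)) := by ring
    _ ≤ Real.exp (-(4 * lam)) * (Real.exp (2 * C₀) + 1 + 2 * lam) * (d ^ 2 / m) *
        (Real.exp (81 / (8 * a)) * Real.exp (-(6 * |x|))) :=
        mul_le_mul_of_nonneg_left c3 (mul_nonneg hQ hdm)
    _ = _ := by ring

/-- the majorant -/
noncomputable def mj (M n : ℕ) : ℝ :=
  (if n < M then (((n + 1).divisors.card : ℝ)) ^ 2 / ((n : ℝ) + 1) else 0) + 1 / ((n : ℝ) + 1) ^ 2

lemma mj_term {lam : ℝ} (n : ℕ) :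
    (((n + 1).divisors.card : ℝ)) ^ 2 / ((n : ℝ) + 1) * Real.exp (-(6 * |Real.log ((n : ℝ) + 1) - 2 * lam|)) ≤
      mj ⌊Real.exp (4 * lam)⌋₊ n := by
  have hn : (0 : ℝ) ≤ n := Nat.cast_nonneg n
  have hm0 : (0 : ℝ) < (n : ℝ) + 1 := by linarith
  unfold mj
  by_cases h : n < ⌊Real.exp (4 * lam)⌋₊
  · rw [if_pos h]
    have h1 : Real.exp (-(6 * |Real.log ((n : ℝ) + 1) - 2 * lam|)) ≤ 1 := by
      rw [Real.exp_le_one_iff]
      have := abs_nonneg (Real.log ((n : ℝ) + 1) - 2 * lam)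
      linarith
    have h2 : 0 ≤ (((n + 1).divisors.card : ℝ)) ^ 2 / ((n : ℝ) + 1) := by positivity
    have h3 : 0 ≤ 1 / ((n : ℝ) + 1) ^ 2 := by positivity
    nlinarith
  · rw [if_neg h, zero_add]
    have h1 : Real.exp (4 * lam) < (n : ℝ) + 1 := by
      have := Nat.lt_succ_floor (Real.exp (4 * lam))
      have h2 : (⌊Real.exp (4 * lam)⌋₊ : ℝ) ≤ n := by exact_mod_cast not_lt.1 h
      push_cast at this
      linarith
    have h2 : 4 * lam ≤ Real.log ((n : ℝ) + 1) := by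
      rw [Real.le_log_iff_exp_le hm0]
      exact h1.le
    have h4 : 0 ≤ Real.log ((n : ℝ) + 1) := Real.log_nonneg (by linarith)
    have h3 : 3 * Real.log ((n : ℝ) + 1) ≤ 6 * |Real.log ((n : ℝ) + 1) - 2 * lam| := by
      have := le_abs_self (Real.log ((n : ℝ) + 1) - 2 * lam)
      linarith
    have h5 : Real.exp (-(6 * |Real.log ((n : ℝ) + 1) - 2 * lam|)) ≤ (((n : ℝ) + 1) ^ 3)⁻¹ := by
      have e : (((n : ℝ) + 1) ^ 3)⁻¹ = Real.exp (-(3 * Real.log ((n : ℝ) + 1))) := by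
        rw [Real.exp_neg]
        congr 1
        have : (3 : ℝ) * Real.log ((n : ℝ) + 1) = ((3 : ℕ) : ℝ) * Real.log ((n : ℝ) + 1) := by norm_num
        rw [this, Real.exp_nat_mul, Real.exp_log hm0]
      rw [e]
      exact Real.exp_le_exp.2 (by linarith)
    have h6 : (((n + 1).divisors.card : ℝ)) ≤ (n : ℝ) + 1 := by
      have := Nat.card_divisors_le_self (n + 1)
      exact_mod_cast this
    calc (((n + 1).divisors.card : ℝ)) ^ 2 / ((n : ℝ) + 1) * Real.exp (-(6 * |Real.log ((n : ℝ) + 1) - 2 * lam|))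
        ≤ ((n : ℝ) + 1) ^ 2 / ((n : ℝ) + 1) * (((n : ℝ) + 1) ^ 3)⁻¹ := by
          gcongr
      _ = 1 / ((n : ℝ) + 1) ^ 2 := by
          field_simp

lemma mj_sum (M : ℕ) : Summable (mj M) ∧
    ∑' n, mj M n ≤ (1 + Real.log M) ^ 4 + ∑' n : ℕ, 1 / ((n : ℝ) + 1) ^ 2 := by
  have s2 : Summable (fun n : ℕ => 1 / ((n : ℝ) + 1) ^ 2) := by
    have h := (summable_nat_add_iff 1).2 (Real.summable_one_div_nat_pow.2 (show 1 < 2 by norm_num))
    refine h.congr (fun n => ?_)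
    push_cast
    rfl
  have h0 : ∀ n ∉ Finset.range M,
      (if n < M then (((n + 1).divisors.card : ℝ)) ^ 2 / ((n : ℝ) + 1) else 0) = 0 := fun n hn => by
    rw [if_neg (fun h => hn (Finset.mem_range.2 h))]
  have s1 : Summable (fun n : ℕ => if n < M then (((n + 1).divisors.card : ℝ)) ^ 2 / ((n : ℝ) + 1) else 0) :=
    summable_of_ne_finset_zero h0
  refine ⟨s1.add s2, ?_⟩
  unfold mj
  rw [s1.tsum_add s2, tsum_eq_sum h0]
  refine add_le_add_left ?_ _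
  refine le_trans (le_of_eq ?_) (Pool.Agent.H316R2.tau_sq_sum_le M)
  rw [← Finset.sum_filter]
  have : (Finset.range M).filter (fun n => n < M) = Finset.range M := by
    ext n; simp
  rw [this]
  refine Finset.sum_bij (fun n _ => n + 1) ?_ ?_ ?_ ?_
  · intro n hn
    rw [Finset.mem_Icc]
    have := Finset.mem_range.1 hn
    omega
  · intro n _ n' _ h
    omega
  · intro m hm
    rw [Finset.mem_Icc] at hm
    exact ⟨m - 1, Finset.mem_range.2 (by omega), by omega⟩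
  · intro n _
    push_cast
    rfl

/-- **(DV)** -/
theorem t_DV : S_DV := by
  intro a C₀ ha hC₀
  obtain ⟨A, hA⟩ : ∃ A : ℝ, A = ∑' n : ℕ, 1 / ((n : ℝ) + 1) ^ 2 := ⟨_, rfl⟩
  have hA0 : 0 ≤ A := by
    rw [hA]
    exact tsum_nonneg (fun n => by positivity)
  refine ⟨Real.exp (4 * C₀) * (Real.exp (2 * C₀) + 2 + 2 * C₀) * Real.exp (81 / (8 * a)) * ((3 + 4 * C₀) ^ 4 + A),
    max 3 (Real.exp (2 * C₀)), by positivity, le_max_left _ _, ?_⟩
  intro T lam hT hl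
  have hT3 : 3 ≤ T := (le_max_left _ _).trans hT
  have hT0 : 0 < T := by linarith
  have hTe : Real.exp (2 * C₀) ≤ T := (le_max_right _ _).trans hT
  have hlog : 2 * C₀ ≤ Real.log T := by
    rw [Real.le_log_iff_exp_le hT0]
    exact hTe
  have hlog1 : 1 ≤ Real.log T := by
    rw [Real.le_log_iff_exp_le hT0]
    have := Real.exp_one_lt_d9
    linarith
  obtain ⟨hl1, hl2⟩ := abs_le.1 hl
  have hlam : 0 ≤ lam := by linarith
  have hTl : Real.log T ≤ 2 * lam + 2 * C₀ := by linarith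
  obtain ⟨Q, hQ⟩ : ∃ Q, Q = Real.exp (-(4 * lam)) * (Real.exp (2 * C₀) + 1 + 2 * lam) * Real.exp (81 / (8 * a)) := ⟨_, rfl⟩
  have hQ0 : 0 ≤ Q := by
    rw [hQ]
    have := Real.exp_pos (2 * C₀)
    positivity
  obtain ⟨M, hM⟩ : ∃ M, M = ⌊Real.exp (4 * lam)⌋₊ := ⟨_, rfl⟩
  have hle : ∀ n : ℕ, (bb a lam n) ^ 2 * (T + ((n : ℝ) + 1) * (1 + Real.log ((n : ℝ) + 1))) ≤ Q * mj M n := by
    intro n
    refine (dv_term ha hT0 hlam hTl n).trans ?_
    rw [← hQ, hM]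
    exact mul_le_mul_of_nonneg_left (mj_term n) hQ0
  have hnn : ∀ n : ℕ, 0 ≤ (bb a lam n) ^ 2 * (T + ((n : ℝ) + 1) * (1 + Real.log ((n : ℝ) + 1))) := by
    intro n
    have h1 : (0 : ℝ) ≤ n := Nat.cast_nonneg n
    have h2 : 0 ≤ Real.log ((n : ℝ) + 1) := Real.log_nonneg (by linarith)
    positivity
  obtain ⟨hs, hsum⟩ := mj_sum M
  have hS : Summable (fun n : ℕ => (bb a lam n) ^ 2 * (T + ((n : ℝ) + 1) * (1 + Real.log ((n : ℝ) + 1)))) :=
    Summable.of_nonneg_of_le hnn hle (hs.mul_left Q)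
  refine ⟨hS, ?_⟩
  have h1 : ∑' n : ℕ, (bb a lam n) ^ 2 * (T + ((n : ℝ) + 1) * (1 + Real.log ((n : ℝ) + 1))) ≤
      Q * ((1 + Real.log M) ^ 4 + A) := by
    refine (hS.tsum_le_tsum hle (hs.mul_left Q)).trans ?_
    rw [tsum_mul_left]
    refine mul_le_mul_of_nonneg_left ?_ hQ0
    rw [hA]
    exact hsum
  refine h1.trans ?_
  have hM1 : 1 ≤ M := by
    rw [hM]
    refine Nat.le_floor ?_
    have := Real.one_le_exp (show 0 ≤ 4 * lam by linarith)
    exact_mod_cast this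
  have hlogM0 : 0 ≤ Real.log M := Real.log_nonneg (by exact_mod_cast hM1)
  have hlogM : Real.log M ≤ 4 * lam := by
    rw [Real.log_le_iff_le_exp (by exact_mod_cast hM1), hM]
    exact Nat.floor_le (Real.exp_pos _).le
  have hlamT : 4 * lam ≤ (2 + 4 * C₀) * Real.log T := by
    have : C₀ * 1 ≤ C₀ * Real.log T := mul_le_mul_of_nonneg_left hlog1 hC₀.le
    linarith
  have b1 : (1 + Real.log M) ^ 4 + A ≤ ((3 + 4 * C₀) ^ 4 + A) * Real.log T ^ 4 := by
    have h2 : 1 + Real.log M ≤ (3 + 4 * C₀) * Real.log T := by linarith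
    have h3 : (1 + Real.log M) ^ 4 ≤ ((3 + 4 * C₀) * Real.log T) ^ 4 := pow_le_pow_left₀ (by linarith) h2 4
    have h4 : (1 : ℝ) ≤ Real.log T ^ 4 := one_le_pow₀ hlog1
    rw [mul_pow] at h3
    nlinarith
  have b2 : Real.exp (2 * C₀) + 1 + 2 * lam ≤ (Real.exp (2 * C₀) + 2 + 2 * C₀) * Real.log T := by
    have h2 : Real.exp (2 * C₀) * 1 ≤ Real.exp (2 * C₀) * Real.log T :=
      mul_le_mul_of_nonneg_left hlog1 (Real.exp_pos _).le
    nlinarith
  have b3 : Real.exp (-(4 * lam)) ≤ Real.exp (4 * C₀) * T ^ (-(2 : ℝ)) := by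
    rw [Real.rpow_def_of_pos hT0, ← Real.exp_add]
    refine Real.exp_le_exp.2 ?_
    linarith
  have hP : 0 ≤ T ^ (-(2 : ℝ)) := Real.rpow_nonneg hT0.le _
  have hlogT0 : 0 ≤ Real.log T := by linarith
  rw [hQ]
  calc Real.exp (-(4 * lam)) * (Real.exp (2 * C₀) + 1 + 2 * lam) * Real.exp (81 / (8 * a)) * ((1 + Real.log M) ^ 4 + A)
      ≤ (Real.exp (4 * C₀) * T ^ (-(2 : ℝ))) * ((Real.exp (2 * C₀) + 2 + 2 * C₀) * Real.log T) * Real.exp (81 / (8 * a)) *
        (((3 + 4 * C₀) ^ 4 + A) * Real.log T ^ 4) := by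
        have q1 : 0 ≤ Real.exp (2 * C₀) + 1 + 2 * lam := by
          have := Real.exp_pos (2 * C₀)
          linarith
        have q2 : 0 ≤ (1 + Real.log M) ^ 4 + A := by positivity
        gcongr
    _ = _ := by ring

end Pool.Agent.J4H23.RZ
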