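import Pool.Agent.J4H5.RZ.Stm2

set_option autoImplicit false

/-!
# Project RZ, piece (FINL): the assembly, second form (after (FIN) of helper87)
-/

namespace Pool.Agent.J4H23.RZ

open Complex MeasureTheory Filter Topology Set
open Pool.Agent.J4H4.NG Pool.Agent.J4H5.RZ

theorem t_FINL : S_FINL := by
  intro hREP hRE hR1 hR2 hR3 hABS b hb
  have ha : (0 : ℝ) < b / 4 := by positivity
  obtain ⟨hH, _, _, _⟩ := hREP b hb
  obtain ⟨C₁, V₀, hC₁, hV₀, hcont, hzero, _⟩ := hRE (b / 4) ha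
  obtain ⟨c, T₁, hc, hT₁, h1⟩ := hR1 (b / 4) ha
  obtain ⟨C₂, T₂, hC₂, hT₂, h2⟩ := hR2 (b / 4) ha
  obtain ⟨C₃, T₃, hC₃, hT₃, h3⟩ := hR3 (b / 4) ha
  obtain ⟨T₄, hT₄, h4⟩ := hABS c (max C₂ C₃) hc (lt_max_of_lt_left hC₂)
  have hlim : ∀ᶠ x : ℝ in atTop, Real.log x ^ (6 : ℝ) ≤ x ^ (1 / 50 : ℝ) := by
    have h := (isLittleO_log_rpow_rpow_atTop (6 : ℝ) (show (0 : ℝ) < 1 / 50 by norm_num)).bound one_pos
    filter_upwards [h, eventually_ge_atTop (1 : ℝ)] with x hx hx1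
    rw [one_mul, Real.norm_eq_abs, Real.norm_eq_abs, abs_of_nonneg (Real.rpow_nonneg (Real.log_nonneg hx1) _),
      abs_of_nonneg (Real.rpow_nonneg (by linarith) _)] at hx
    exact hx
  obtain ⟨T₅, hT₅⟩ := eventually_atTop.1 hlim
  refine ⟨max (Real.exp 6) (6 * max (max T₁ T₂) (max (max T₃ T₄) (max V₀ (max T₅ 3)))),
    le_trans (by linarith [Real.add_one_le_exp (6 : ℝ)]) (le_max_left _ _), ?_⟩
  intro R hR
  have g1 : Real.exp 6 ≤ R := le_trans (le_max_left _ _) hR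
  have g3 : 6 * max (max T₁ T₂) (max (max T₃ T₄) (max V₀ (max T₅ 3))) ≤ R := le_trans (le_max_right _ _) hR
  set T : ℝ := R / 6 with hT
  have g4 : max (max T₁ T₂) (max (max T₃ T₄) (max V₀ (max T₅ 3))) ≤ T := by
    rw [hT]
    linarith
  have k1 : T₁ ≤ T := le_trans (le_trans (le_max_left _ _) (le_max_left _ _)) g4
  have k2 : T₂ ≤ T := le_trans (le_trans (le_max_right _ _) (le_max_left _ _)) g4
  have k0 : max (max T₃ T₄) (max V₀ (max T₅ 3)) ≤ T := le_trans (le_max_right _ _) g4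
  have k3 : T₃ ≤ T := le_trans (le_trans (le_max_left _ _) (le_max_left _ _)) k0
  have k4 : T₄ ≤ T := le_trans (le_trans (le_max_right _ _) (le_max_left _ _)) k0
  have k00 : max V₀ (max T₅ 3) ≤ T := le_trans (le_max_right _ _) k0
  have k5 : V₀ ≤ T := le_trans (le_max_left _ _) k00
  have k000 : max T₅ 3 ≤ T := le_trans (le_max_right _ _) k00
  have k6 : T₅ ≤ T := le_trans (le_max_left _ _) k000
  have k7 : (3 : ℝ) ≤ T := le_trans (le_max_right _ _) k000
  have hT0 : (0 : ℝ) < T := by linarith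
  have hR0 : (0 : ℝ) < R := by
    have := Real.exp_pos (6 : ℝ)
    linarith
  have hlog1 : (1 : ℝ) ≤ Real.log T := by
    rw [Real.le_log_iff_exp_le hT0]
    have := Real.exp_one_lt_d9
    linarith
  have hlog0 : (0 : ℝ) < Real.log T := by linarith
  have hh1 : (1 : ℝ) ≤ Real.log T ^ 6 := one_le_pow₀ hlog1
  have hh2 : Real.log T ^ 6 ≤ T ^ (1 / 50 : ℝ) := by
    have := hT₅ T k6
    rwa [← Real.rpow_natCast]
  have e2 : ∫ v in T..(3 * T), (RR (b / 4) v) ^ 4 ≤ max C₂ C₃ * (Real.log T) ^ 5 * T ^ (-(2 : ℝ)) := by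
    refine (h2 T k2).trans ?_
    gcongr
    exact le_max_left _ _
  have e3 : ∫ v in T..(2 * T), (∫ u in v..(v + (Real.log T) ^ 6), RR (b / 4) u) ^ 2 ≤
      max C₂ C₃ * (Real.log T) ^ 6 * T ^ (-(1 / 2 : ℝ)) := by
    refine (h3 T (Real.log T ^ 6) k3 hh1 hh2).trans ?_
    gcongr
    exact le_max_right _ _
  obtain ⟨S, hS, hcard⟩ := h4 T (RR (b / 4)) k4 (hcont.mono fun x hx => le_trans k5 hx.1) (h1 T k1) e2 e3
  classical
  refine ⟨S.image fun v => 2 * v, ?_, ?_⟩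
  · intro x hx
    obtain ⟨v, hv, rfl⟩ := Finset.mem_image.1 hx
    obtain ⟨a1, a2, a3⟩ := hS v hv
    have a4 := hzero v (k5.trans a1) a3
    refine ⟨by linarith, by rw [hT] at a2; linarith, ?_⟩
    rw [hH]
    have : I * (((2 * v : ℝ) : ℝ) : ℂ) / 2 = I * v := by
      push_cast
      ring
    rw [this, a4, mul_zero]
  · rw [Finset.card_image_of_injective _ (fun x y h => by simpa using h)]
    refine le_trans ?_ hcard
    have q0 : (6 : ℝ) ≤ Real.log R := by
      rw [Real.le_log_iff_exp_le hR0]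
      exact g1
    have q1 : Real.log T ≤ Real.log R := Real.log_le_log hT0 (by rw [hT]; linarith)
    have q2 : T / Real.log R ^ 14 ≤ T / Real.log T ^ 14 := by
      gcongr
    refine le_trans ?_ q2
    rw [hT, div_le_div_iff₀ (by positivity) (by positivity)]
    have q3 : 0 ≤ R * Real.log R ^ 14 := by positivity
    have q4 : Real.log R ^ 15 = Real.log R ^ 14 * Real.log R := by ring
    rw [q4]
    nlinarith
end Pool.Agent.J4H23.RZ
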